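import Pool.Agent.helper88.Vis.Defs

set_option autoImplicit false

/-! # MP_6b3417_co, part II, module II-C3: assembly of the combinatorial data -/

namespace Pool.Agent.helper18.Vis
open Pool.Agent.helper47.Vis Pool.Agent.helper88.Vis

/-- consecutive points of an enumeration have no point of the set between them -/
theorem enum_consecutive {S : Finset (ℝ × ℝ)} {d : ℝ × ℝ} {e : ℕ → ℝ × ℝ} (hd : d ≠ 0)
    (he : Enum S d e) {j : ℕ} (hj : j + 1 < S.card) {v : ℝ × ℝ} (hv : v ∈ S) :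
    v ∉ openSegment ℝ (e j) (e (j + 1)) := by
  rintro ⟨a, b, ha, hb, hab, hvv⟩
  obtain ⟨l, hl, rfl⟩ := he.surj v hv
  obtain ⟨t, ht, hte⟩ := he.lt j (j + 1) (by omega) hj
  have ha' : a = 1 - b := by linarith
  have h1 : e l = e j + (b * t) • d := by
    rw [← hvv, hte, ha']
    ext <;> simp <;> ring
  have key : ∀ s : ℝ, s • d = 0 → s = 0 := fun s hs => (smul_eq_zero.1 hs).resolve_right hd
  rcases lt_trichotomy l j with hlj | rfl | hlj
  · obtain ⟨s, hs, hse⟩ := he.lt l j hlj (by omega)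
    have h2 : (b * t + s) • d = 0 := by
      rw [add_smul]
      have : e l + s • d = e l - (b * t) • d := by rw [← hse, h1]; simp
      have h3 : s • d = - ((b * t) • d) := by
        rw [sub_eq_add_neg] at this
        exact add_left_cancel this
      rw [h3]; simp
    have := key _ h2
    nlinarith [mul_pos hb ht]
  · have h2 : (b * t) • d = 0 := by
      have : e l + 0 = e l + (b * t) • d := by rw [add_zero]; exact h1
      exact (add_left_cancel this).symm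
    have := key _ h2
    nlinarith [mul_pos hb ht]
  · rcases Nat.lt_or_ge (j + 1) l with h3 | h3
    · obtain ⟨s, hs, hse⟩ := he.lt (j + 1) l h3 hl
      have h2 : (t + s - b * t) • d = 0 := by
        have : e j + (b * t) • d = e j + (t • d + s • d) := by
          rw [← h1, hse, hte, add_assoc]
        have h4 := add_left_cancel this
        rw [sub_smul, add_smul, h4, sub_self]
      have := key _ h2
      nlinarith
    · have : l = j + 1 := by omega
      subst this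
      have h2 : (t - b * t) • d = 0 := by
        have : e j + (b * t) • d = e j + t • d := by rw [← h1, hte]
        have h4 := add_left_cancel this
        rw [sub_smul, h4, sub_self]
      have := key _ h2
      nlinarith

theorem row_consecutive {H : ℕ} {V : ℕ → Finset (ℝ × ℝ)} {c d : ℕ → ℝ × ℝ} (hC : Chain H V c d)
    {i : ℕ} (hi : i ≤ H) {e : ℕ → ℝ × ℝ} (he : Enum (row V c d i) (d i) e) {j : ℕ}
    (hj : j + 1 < (row V c d i).card) : ∀ v ∈ V i, v ∉ openSegment ℝ (e j) (e (j + 1)) := by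
  intro v hv hvs
  have h1 : sd (c i) (d i) (e j) = 0 := (mem_fil.1 (he.mem j (by omega))).2
  have h2 : sd (c i) (d i) (e (j + 1)) = 0 := (mem_fil.1 (he.mem (j + 1) hj)).2
  obtain ⟨a, b, _, _, _, h3⟩ := sd_openSegment (c := c i) (d := d i) hvs
  have h4 : sd (c i) (d i) v = 0 := by rw [h3, h1, h2]; ring
  exact enum_consecutive (hC.dne i hi) he hj (mem_fil.2 ⟨hv, h4⟩) hvs

/-- module II-C3, with the statements of II-C1 and II-C2 as hypotheses -/
theorem exists_crows_of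
    (exists_enum : ∀ (S : Finset (ℝ × ℝ)) (c d : ℝ × ℝ), d ≠ 0 → (∀ p ∈ S, sd c d p = 0) →
      ∃ e, Enum S d e)
    (chain_half : ∀ (H : ℕ) (V : ℕ → Finset (ℝ × ℝ)) (c d : ℕ → ℝ × ℝ), Chain H V c d →
      ∀ (i : ℕ), i + 2 ≤ H → (row V c d i).card ≤ 2 * (row V c d (i + 1)).card + 3)
    (chain_interval : ∀ (H : ℕ) (V : ℕ → Finset (ℝ × ℝ)) (c d : ℕ → ℝ × ℝ), Chain H V c d →
      ∀ (i : ℕ), i + 2 ≤ H → ∀ (e : ℕ → ℝ × ℝ), Enum (row V c d i) (d i) e →
      ∃ lo hi' : ℕ, lo ≤ hi' ∧ hi' ≤ (row V c d i).card ∧ (row V c d i).card + lo ≤ hi' + 7 ∧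
        ∀ j < (row V c d i).card, ((lo ≤ j ∧ j < hi') ↔
          (sd (c (i + 1)) (d (i + 1)) (e j) < 0 ∧ sd (c (i + 2)) (d (i + 2)) (e j) < 0)))
    (Fn_le : ∀ (Z : Finset (ℝ × ℝ)) (s r : ℝ × ℝ), Fn Z s r ≤ 2 * Z.card)
    (Fn_lt_left : ∀ (H : ℕ) (V : ℕ → Finset (ℝ × ℝ)) (c d : ℕ → ℝ × ℝ), Chain H V c d →
      ∀ (i : ℕ), i + 2 ≤ H → 4 ≤ (row V c d (i + 1)).card → ∀ (s s' r : ℝ × ℝ),
      s ∈ row V c d i → s' ∈ row V c d i → r ∈ row V c d (i + 2) →
      sd (c (i + 1)) (d (i + 1)) s < 0 → sd (c (i + 1)) (d (i + 1)) s' < 0 →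
      sd (c (i + 2)) (d (i + 2)) s < 0 → sd (c (i + 2)) (d (i + 2)) s' < 0 →
      ∀ (t : ℝ), 0 < t → s' = s + t • d i → (∀ v ∈ V i, v ∉ openSegment ℝ s s') →
      Fn (row V c d (i + 1)) s r < Fn (row V c d (i + 1)) s' r)
    (Fn_lt_right : ∀ (H : ℕ) (V : ℕ → Finset (ℝ × ℝ)) (c d : ℕ → ℝ × ℝ), Chain H V c d →
      ∀ (i : ℕ), i + 2 ≤ H → 4 ≤ (row V c d (i + 1)).card → ∀ (s r r' : ℝ × ℝ),
      s ∈ row V c d i → r ∈ row V c d (i + 2) → r' ∈ row V c d (i + 2) →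
      sd (c (i + 1)) (d (i + 1)) s < 0 → sd (c (i + 2)) (d (i + 2)) s < 0 →
      ∀ (t : ℝ), 0 < t → r' = r + t • d (i + 2) → (∀ v ∈ V (i + 2), v ∉ openSegment ℝ r r') →
      Fn (row V c d (i + 1)) s r < Fn (row V c d (i + 1)) s r')
    (Fn_odd : ∀ (H : ℕ) (V : ℕ → Finset (ℝ × ℝ)) (c d : ℕ → ℝ × ℝ), Chain H V c d →
      ∀ (i : ℕ), i + 2 ≤ H → ∀ (e : ℕ → ℝ × ℝ), Enum (row V c d (i + 1)) (d (i + 1)) e →
      ∀ (s r : ℝ × ℝ), s ∈ row V c d i → r ∈ row V c d (i + 2) →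
      sd (c (i + 1)) (d (i + 1)) s < 0 → ∀ (m : ℕ), Fn (row V c d (i + 1)) s r = 2 * m + 1 →
      m < (row V c d (i + 1)).card ∧ ori s r (e m) = 0)
    (H : ℕ) (V : ℕ → Finset (ℝ × ℝ)) (c d : ℕ → ℝ × ℝ) (hC : Chain H V c d) :
    ∃ pt n lo hi F, CRows H V c d pt n lo hi F := by
  have h1 : ∀ i, ∃ e : ℕ → ℝ × ℝ, i ≤ H → Enum (row V c d i) (d i) e := by
    intro i
    by_cases h : i ≤ H
    · obtain ⟨e, he⟩ := exists_enum (row V c d i) (c i) (d i) (hC.dne i h) (fun p hp => (mem_fil.1 hp).2)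
      exact ⟨e, fun _ => he⟩
    · exact ⟨fun _ => 0, fun h' => absurd h' h⟩
  choose pt hpt using h1
  have h2 : ∀ i, ∃ lo hi' : ℕ, i + 2 ≤ H → (lo ≤ hi' ∧ hi' ≤ (row V c d i).card ∧
      (row V c d i).card + lo ≤ hi' + 7 ∧ ∀ j < (row V c d i).card, ((lo ≤ j ∧ j < hi') ↔
        (sd (c (i + 1)) (d (i + 1)) (pt i j) < 0 ∧ sd (c (i + 2)) (d (i + 2)) (pt i j) < 0))) := by
    intro i
    by_cases h : i + 2 ≤ H
    · obtain ⟨lo, hi', h'⟩ := chain_interval H V c d hC i h (pt i) (hpt i (by omega))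
      exact ⟨lo, hi', fun _ => h'⟩
    · exact ⟨0, 0, fun h' => absurd h' h⟩
  choose lo hi hlh using h2
  have hnear : ∀ i, i + 2 ≤ H → ∀ j, lo i ≤ j → j < hi i →
      sd (c (i + 1)) (d (i + 1)) (pt i j) < 0 ∧ sd (c (i + 2)) (d (i + 2)) (pt i j) < 0 := by
    intro i hi' j hj1 hj2
    obtain ⟨_, h3, _, h4⟩ := hlh i hi'
    exact (h4 j (by omega)).1 ⟨hj1, hj2⟩
  refine ⟨pt, fun i => (row V c d i).card, lo, hi, fun i j k => Fn (row V c d (i + 1)) (pt i j) (pt (i + 2) k),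
    ?_, ?_, ?_, hnear, ?_, ?_, ?_, ?_, ?_⟩
  · intro i _; rfl
  · intro i hi'; exact hpt i hi'
  · intro i hi'
    obtain ⟨h3, h4, h5, _⟩ := hlh i hi'
    exact ⟨h3, h4, h5⟩
  · intro i hi'; exact chain_half H V c d hC i hi'
  · intro i _ j k; exact Fn_le _ _ _
  · intro i hi' h4 j k hj1 hj2 hk
    obtain ⟨g1, g2, g3, _⟩ := hlh i hi'
    have e1 := hpt i (by omega)
    have e2 := hpt (i + 2) hi'
    obtain ⟨t, ht, hte⟩ := e1.lt j (j + 1) (by omega) (by omega)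
    have n1 := hnear i hi' j hj1 (by omega)
    have n2 := hnear i hi' (j + 1) (by omega) hj2
    exact Fn_lt_left H V c d hC i hi' h4 (pt i j) (pt i (j + 1)) (pt (i + 2) k) (e1.mem j (by omega))
      (e1.mem (j + 1) (by omega)) (e2.mem k hk) n1.1 n2.1 n1.2 n2.2 t ht hte
      (row_consecutive hC (by omega) e1 (by omega))
  · intro i hi' h4 j k hj1 hj2 hk
    obtain ⟨g1, g2, g3, _⟩ := hlh i hi'
    have e1 := hpt i (by omega)
    have e2 := hpt (i + 2) hi'
    obtain ⟨t, ht, hte⟩ := e2.lt k (k + 1) (by omega) hk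
    have n1 := hnear i hi' j hj1 hj2
    exact Fn_lt_right H V c d hC i hi' h4 (pt i j) (pt (i + 2) k) (pt (i + 2) (k + 1)) (e1.mem j (by omega))
      (e2.mem k (by omega)) (e2.mem (k + 1) hk) n1.1 n1.2 t ht hte
      (row_consecutive hC hi' e2 hk)
  · intro i hi' j k m hj1 hj2 hk hF
    obtain ⟨g1, g2, g3, _⟩ := hlh i hi'
    have e1 := hpt i (by omega)
    have e2 := hpt (i + 2) hi'
    exact Fn_odd H V c d hC i hi' (pt (i + 1)) (hpt (i + 1) (by omega)) (pt i j) (pt (i + 2) k)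
      (e1.mem j (by omega)) (e2.mem k hk) (hnear i hi' j hj1 hj2).1 m hF

/-- size inequality -/
theorem crows_size (H : ℕ) (V : ℕ → Finset (ℝ × ℝ)) (c d : ℕ → ℝ × ℝ) (pt : ℕ → ℕ → ℝ × ℝ)
    (n lo hi : ℕ → ℕ) (F : ℕ → ℕ → ℕ → ℕ) (hR : CRows H V c d pt n lo hi F)
    (i : ℕ) (hi' : i + 2 ≤ H) (h8 : 8 ≤ n i) (h4 : 4 ≤ n (i + 1)) :
    n i + n (i + 2) ≤ 2 * n (i + 1) + 9 := by
  obtain ⟨g1, g2, g3⟩ := hR.lohi i hi'
  have hh := hR.half i hi'
  rcases Nat.eq_zero_or_pos (n (i + 2)) with h0 | h0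
  · omega
  -- first along `j`
  have s1 : ∀ a, lo i + a < hi i → a ≤ F i (lo i + a) 0 := by
    intro a
    induction a with
    | zero => intro _; exact Nat.zero_le _
    | succ a ih =>
      intro ha
      have e1 := ih (by omega)
      have e2 := hR.F_lt1 i hi' h4 (lo i + a) 0 (by omega) (by omega) h0
      have e3 : lo i + a + 1 = lo i + (a + 1) := by omega
      rw [e3] at e2
      omega
  have s2 : ∀ b, b < n (i + 2) → hi i - 1 - lo i + b ≤ F i (hi i - 1) b := by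
    intro b
    induction b with
    | zero =>
      intro _
      have := s1 (hi i - 1 - lo i) (by omega)
      have e3 : lo i + (hi i - 1 - lo i) = hi i - 1 := by omega
      rw [e3] at this
      omega
    | succ b ih =>
      intro hb
      have e1 := ih (by omega)
      have e2 := hR.F_lt2 i hi' h4 (hi i - 1) b (by omega) (by omega) hb
      omega
  have e5 := s2 (n (i + 2) - 1) (by omega)
  have e6 := hR.F_le i hi' (hi i - 1) (n (i + 2) - 1)
  omega

end Pool.Agent.helper18.Vis
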