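import Pool.Agent.helper88.Vis.Defs

set_option autoImplicit false

/-! # MP_6b3417_co, part I, module I-F: weak Erdős–Szekeres -/

namespace Pool.Agent.helper18.Vis
open Pool.Agent.helper47.Vis Pool.Agent.helper88.Vis

/-- the slope of the segment from `p` to `q` in the coordinates `(X, Y)` -/
noncomputable def sl (X Y : ℝ × ℝ → ℝ) (p q : ℝ × ℝ) : ℝ := (Y q - Y p) / (X q - X p)

/-- a weak cup with `a` points ending with the points `p, q` -/
def Cup (X Y : ℝ × ℝ → ℝ) (P : Finset (ℝ × ℝ)) (a : ℕ) (p q : ℝ × ℝ) : Prop :=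
  ∃ C : Finset (ℝ × ℝ), C ⊆ P ∧ C.card = a ∧ p ∈ C ∧ q ∈ C ∧ (∀ r ∈ C, X r ≤ X q) ∧
    (∀ r ∈ C, sl X Y p q * (X r - X q) ≤ Y r - Y q) ∧
    ∀ c ∈ C, ∃ s ≤ sl X Y p q, ∀ r ∈ C, s * (X r - X c) ≤ Y r - Y c

theorem cup_base (X Y : ℝ × ℝ → ℝ) (P : Finset (ℝ × ℝ)) {p q : ℝ × ℝ} (hp : p ∈ P) (hq : q ∈ P)
    (h : X p < X q) : Cup X Y P 2 p q := by
  classical
  have hne : p ≠ q := by rintro rfl; exact lt_irrefl _ h
  have hs : sl X Y p q * (X q - X p) = Y q - Y p := div_mul_cancel₀ _ (by linarith)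
  refine ⟨{p, q}, ?_, Finset.card_pair hne, by simp, by simp, ?_, ?_, ?_⟩
  · intro r hr
    simp only [Finset.mem_insert, Finset.mem_singleton] at hr
    rcases hr with rfl | rfl <;> assumption
  · intro r hr
    simp only [Finset.mem_insert, Finset.mem_singleton] at hr
    rcases hr with rfl | rfl
    · exact h.le
    · exact le_rfl
  · intro r hr
    simp only [Finset.mem_insert, Finset.mem_singleton] at hr
    rcases hr with rfl | rfl
    · linarith
    · simp
  · intro c hc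
    refine ⟨_, le_rfl, ?_⟩
    simp only [Finset.mem_insert, Finset.mem_singleton] at hc
    intro r hr
    simp only [Finset.mem_insert, Finset.mem_singleton] at hr
    rcases hr with rfl | rfl <;> rcases hc with rfl | rfl
    · simp
    · linarith
    · linarith
    · simp

theorem cup_step (X Y : ℝ × ℝ → ℝ) (P : Finset (ℝ × ℝ)) {a : ℕ} {p q u : ℝ × ℝ} (h : Cup X Y P a p q)
    (hu : u ∈ P) (hqu : X q < X u) (hsl : sl X Y p q ≤ sl X Y q u) : Cup X Y P (a + 1) q u := by
  classical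
  obtain ⟨C, hC, hca, hp, hq, h1, h2, h3⟩ := h
  have huC : u ∉ C := fun h => absurd (h1 u h) (not_le.2 hqu)
  have hs : sl X Y q u * (X u - X q) = Y u - Y q := div_mul_cancel₀ _ (by linarith)
  have key : ∀ r ∈ C, sl X Y q u * (X r - X u) ≤ Y r - Y u := by
    intro r hr
    have e1 := h2 r hr
    have e2 : sl X Y q u * (X r - X q) ≤ sl X Y p q * (X r - X q) :=
      mul_le_mul_of_nonpos_right hsl (by linarith [h1 r hr])
    nlinarith
  refine ⟨insert u C, ?_, ?_, ?_, ?_, ?_, ?_, ?_⟩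
  · intro r hr
    rcases Finset.mem_insert.1 hr with rfl | hr
    · exact hu
    · exact hC hr
  · rw [Finset.card_insert_of_notMem huC, hca]
  · exact Finset.mem_insert_of_mem hq
  · exact Finset.mem_insert_self _ _
  · intro r hr
    rcases Finset.mem_insert.1 hr with rfl | hr
    · exact le_rfl
    · exact (h1 r hr).trans hqu.le
  · intro r hr
    rcases Finset.mem_insert.1 hr with rfl | hr
    · simp
    · exact key r hr
  · intro c hc
    rcases Finset.mem_insert.1 hc with rfl | hc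
    · refine ⟨_, le_rfl, fun r hr => ?_⟩
      rcases Finset.mem_insert.1 hr with rfl | hr
      · simp
      · exact key r hr
    · obtain ⟨s, hs1, hs2⟩ := h3 c hc
      refine ⟨s, hs1.trans hsl, fun r hr => ?_⟩
      rcases Finset.mem_insert.1 hr with rfl | hr
      · have e1 := hs2 q hq
        have e2 : s * (X r - X q) ≤ sl X Y q r * (X r - X q) :=
          mul_le_mul_of_nonneg_right (hs1.trans hsl) (by linarith)
        nlinarith
      · exact hs2 r hr

theorem sl_neg (X Y : ℝ × ℝ → ℝ) (p q : ℝ × ℝ) : sl X (fun r => - Y r) p q = - sl X Y p q := by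
  unfold sl
  rw [← neg_div]
  congr 1
  ring

/-- the combinatorial part -/
theorem exists_cup (X Y : ℝ × ℝ → ℝ) (m : ℕ) (hm : 2 ≤ m) (P : Finset (ℝ × ℝ))
    (hX : ∀ p ∈ P, ∀ q ∈ P, p ≠ q → X p ≠ X q) (h : 2 ^ (m ^ 2) < P.card) :
    (∃ p q, Cup X Y P m p q) ∨ ∃ p q, Cup X (fun r => - Y r) P m p q := by
  classical
  by_contra hcon
  push Not at hcon
  obtain ⟨hc1, hc2⟩ := hcon
  -- the label
  let lab : (ℝ × ℝ → ℝ) → ℝ × ℝ → ℝ × ℝ → ℕ := fun Z p q => Nat.findGreatest (fun a => Cup X Z P a p q) m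
  have hlt : ∀ Z, (∀ p q, ¬ Cup X Z P m p q) → ∀ p q, lab Z p q < m := by
    intro Z hZ p q
    have h1 : lab Z p q ≤ m := Nat.findGreatest_le m
    rcases h1.lt_or_eq with h2 | h2
    · exact h2
    · exfalso
      have h3 := Nat.findGreatest_of_ne_zero (P := fun a => Cup X Z P a p q) (n := m) h2 (by omega)
      exact hZ p q h3
  have hspec : ∀ Z p q, p ∈ P → q ∈ P → X p < X q → Cup X Z P (lab Z p q) p q := by
    intro Z p q hp hq hpq
    exact Nat.findGreatest_spec (P := fun a => Cup X Z P a p q) hm (cup_base X Z P hp hq hpq)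
  have hstep : ∀ Z, (∀ p q, ¬ Cup X Z P m p q) → ∀ p q u, p ∈ P → q ∈ P → u ∈ P → X p < X q → X q < X u →
      sl X Z p q ≤ sl X Z q u → lab Z p q < lab Z q u := by
    intro Z hZ p q u hp hq hu hpq hqu hs
    have h1 := cup_step X Z P (hspec Z p q hp hq hpq) hu hqu hs
    exact Nat.le_findGreatest (hlt Z hZ p q) h1
  let L : ℝ × ℝ → ℝ × ℝ → Fin m × Fin m := fun p q =>
    (⟨lab Y p q, hlt Y hc1 p q⟩, ⟨lab (fun r => - Y r) p q, hlt _ hc2 p q⟩)
  have hL : ∀ p q u, p ∈ P → q ∈ P → u ∈ P → X p < X q → X q < X u → L p q ≠ L q u := by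
    intro p q u hp hq hu hpq hqu he
    have e1 : lab Y p q = lab Y q u := congrArg (fun x : Fin m × Fin m => (x.1 : ℕ)) he
    have e2 : lab (fun r => - Y r) p q = lab (fun r => - Y r) q u :=
      congrArg (fun x : Fin m × Fin m => (x.2 : ℕ)) he
    rcases le_total (sl X Y p q) (sl X Y q u) with hs | hs
    · exact absurd e1 (hstep Y hc1 p q u hp hq hu hpq hqu hs).ne
    · refine absurd e2 (hstep _ hc2 p q u hp hq hu hpq hqu ?_).ne
      rw [sl_neg, sl_neg]
      linarith
  let A : ℝ × ℝ → Finset (Fin m × Fin m) := fun p => (P.filter fun q => X p < X q).image (L p)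
  have hinj : Set.InjOn A P := by
    have key : ∀ p ∈ P, ∀ q ∈ P, X p < X q → A p ≠ A q := by
      intro p hp q hq hpq he
      have h1 : L p q ∈ A p := Finset.mem_image_of_mem _ (Finset.mem_filter.2 ⟨hq, hpq⟩)
      rw [he] at h1
      obtain ⟨u, hu, hu2⟩ := Finset.mem_image.1 h1
      obtain ⟨hu, hqu⟩ := Finset.mem_filter.1 hu
      exact hL p q u hp hq hu hpq hqu hu2.symm
    intro p hp q hq he
    by_contra hne
    rcases lt_or_gt_of_ne (hX p hp q hq hne) with h1 | h1
    · exact key p hp q hq h1 he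
    · exact key q hq p hp h1 he.symm
  have hcard := Finset.card_le_card_of_injOn (s := P) (t := (Finset.univ : Finset (Finset (Fin m × Fin m))))
    A (fun _ _ => Finset.mem_coe.2 (Finset.mem_univ _)) hinj
  rw [Finset.card_univ, Fintype.card_finset, Fintype.card_prod, Fintype.card_fin] at hcard
  rw [pow_two] at h
  omega

theorem exists_shear (P : Finset (ℝ × ℝ)) : ∃ t : ℝ, ∀ p ∈ P, ∀ q ∈ P, p ≠ q →
    p.1 + t * p.2 ≠ q.1 + t * q.2 := by
  classical
  obtain ⟨t, ht⟩ := Infinite.exists_notMem_finset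
    ((P ×ˢ P).image fun x : (ℝ × ℝ) × (ℝ × ℝ) => -(x.1.1 - x.2.1) / (x.1.2 - x.2.2))
  refine ⟨t, fun p hp q hq hne he => ht ?_⟩
  refine Finset.mem_image.2 ⟨(p, q), Finset.mem_product.2 ⟨hp, hq⟩, ?_⟩
  have h1 : p.2 - q.2 ≠ 0 := by
    intro h0
    apply hne
    have h2 : p.2 = q.2 := by linarith
    have h3 : p.1 = q.1 := by rw [h2] at he; linarith
    exact Prod.ext h3 h2
  simp only
  rw [div_eq_iff h1]
  linarith

theorem exists_wconv (m : ℕ) (P : Finset (ℝ × ℝ)) (h : 2 ^ (m ^ 2) < P.card) :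
    ∃ C ⊆ P, C.card = m ∧ ∀ c ∈ C, c ∈ Bd C := by
  classical
  rcases Nat.lt_or_ge m 2 with hm | hm
  · interval_cases m
    · exact ⟨∅, by simp, by simp, by simp⟩
    · obtain ⟨p, hp⟩ : P.Nonempty := Finset.card_pos.1 (by omega)
      refine ⟨{p}, by simpa using hp, by simp, ?_⟩
      intro c hc
      rw [Finset.mem_singleton] at hc
      subst hc
      refine mem_fil.2 ⟨by simp, (1, 0), by simp, ?_⟩
      intro r hr
      rw [Finset.mem_singleton] at hr
      rw [hr]
  obtain ⟨t, ht⟩ := exists_shear P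
  have main : ∀ σ : ℝ, σ ≠ 0 → (∃ p q, Cup (fun r => r.1 + t * r.2) (fun r => σ * r.2) P m p q) →
      ∃ C ⊆ P, C.card = m ∧ ∀ c ∈ C, c ∈ Bd C := by
    rintro σ hσ ⟨p, q, C, hC, hcard, -, -, -, -, h3⟩
    refine ⟨C, hC, hcard, fun c hc => ?_⟩
    obtain ⟨s, -, hs⟩ := h3 c hc
    refine mem_fil.2 ⟨hc, (-s, σ - s * t), ?_, fun r hr => ?_⟩
    · intro h0
      have e1 : -s = 0 := congrArg Prod.fst h0
      have e2 : σ - s * t = 0 := congrArg Prod.snd h0
      have e3 : s = 0 := by linarith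
      rw [e3] at e2
      apply hσ
      linarith
    · have := hs r hr
      simp only at this ⊢
      nlinarith
  rcases exists_cup (fun r => r.1 + t * r.2) (fun r => (1 : ℝ) * r.2) m hm P ht h with h1 | h1
  · exact main 1 one_ne_zero h1
  · refine main (-1) (by norm_num) ?_
    have e : (fun r : ℝ × ℝ => - ((1 : ℝ) * r.2)) = fun r => (-1 : ℝ) * r.2 := by
      funext r; ring
    rwa [e] at h1

end Pool.Agent.helper18.Vis
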