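import Pool.Agent.helper47.Vis.Defs

set_option autoImplicit false

/-! # MP_6b3417_co, part III, module III-b: parameters and the corridor window -/

namespace Pool.Agent.helper18.Vis
open Pool.Agent.helper47.Vis

lemma sq_le_two_pow (n : ℕ) (h : 4 ≤ n) : n ^ 2 ≤ 2 ^ n := by
  induction n, h using Nat.le_induction with
  | base => norm_num
  | succ n hn ih =>
    calc (n + 1) ^ 2 = n ^ 2 + 2 * n + 1 := by ring
      _ ≤ n ^ 2 + n ^ 2 := by nlinarith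
      _ ≤ 2 ^ n + 2 ^ n := by omega
      _ = 2 ^ (n + 1) := by ring

lemma par_aux (C : ℕ) : ∃ M₀ : ℕ, 5 ≤ M₀ ∧ ∀ M : ℕ, M₀ ≤ M → ∃ R K : ℕ,
    C * (8 * K + 1) ≤ R ∧ 1000 * R ≤ M ∧ 10 ^ 6 * M ^ 10 ≤ 2 ^ K := by
  obtain ⟨A, hA⟩ : ∃ A : ℕ, A = 1000 * C * 321 := ⟨_, rfl⟩
  refine ⟨2 ^ (A + 4), ?_, fun M hM => ?_⟩
  · have : 2 ^ 4 ≤ 2 ^ (A + 4) := Nat.pow_le_pow_right (by norm_num) (by omega)
    omega
  · obtain ⟨L, hL⟩ : ∃ L : ℕ, L = Nat.log 2 M := ⟨_, rfl⟩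
    have hM0 : M ≠ 0 := by
      have : 0 < 2 ^ (A + 4) := by positivity
      omega
    have h1 : 2 ^ L ≤ M := hL ▸ Nat.pow_log_le_self 2 hM0
    have h2 : M < 2 ^ (L + 1) := hL ▸ Nat.lt_pow_succ_log_self (by norm_num) M
    have h3 : A + 4 ≤ L := by
      rw [hL]
      exact Nat.le_log_of_pow_le (by norm_num) hM
    refine ⟨M / 1000, 10 * L + 30, ?_, ?_, ?_⟩
    · rw [Nat.le_div_iff_mul_le (by norm_num)]
      have h4 : L ^ 2 ≤ 2 ^ L := sq_le_two_pow L (by omega)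
      have h6 : 8 * (10 * L + 30) + 1 ≤ 321 * L := by omega
      have h5 : C * (8 * (10 * L + 30) + 1) * 1000 ≤ A * L := by
        rw [hA]
        calc C * (8 * (10 * L + 30) + 1) * 1000 ≤ C * (321 * L) * 1000 :=
              Nat.mul_le_mul_right _ (Nat.mul_le_mul_left _ h6)
          _ = 1000 * C * 321 * L := by ring
      calc C * (8 * (10 * L + 30) + 1) * 1000 ≤ A * L := h5
        _ ≤ L * L := Nat.mul_le_mul_right _ (by omega)
        _ = L ^ 2 := by ring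
        _ ≤ 2 ^ L := h4
        _ ≤ M := h1
    · exact Nat.mul_div_le M 1000
    · have e : (2 : ℕ) ^ (10 * L + 30) = 2 ^ 20 * (2 ^ (L + 1)) ^ 10 := by
        rw [← pow_mul, ← pow_add]
        congr 1
        ring
      rw [e]
      exact Nat.mul_le_mul (by norm_num) (Nat.pow_le_pow_left h2.le 10)

/-- Module P (parameters). -/
theorem exists_par : ∃ M₀ : ℕ, 5 ≤ M₀ ∧ ∀ M : ℕ, M₀ ≤ M → ∃ R K : ℕ, Par M R K := by
  obtain ⟨M₀, h5, h⟩ := par_aux (128 * SQ)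
  refine ⟨M₀, h5, fun M hM => ?_⟩
  obtain ⟨R, K, h1, h2, h3⟩ := h M hM
  exact ⟨R, K, h1, h2, h3⟩

/-- existence of the slice -/
lemma exists_slice {x y M μ z1 z2 : ℝ} (hz1 : 0 < z1) (hz2 : 0 < z2) (hA : 0 < z1 - M) (hB : 0 < z2 - M)
    (a : μ ≤ y) (b : μ ≤ x) (c : y - M + μ ≤ 3 / 4 * (z2 - M)) (d : x - M + μ ≤ 3 / 4 * (z1 - M))
    (e : (y - M + μ) * z2 ≤ (y - μ) * (z2 - M)) (f : (y - M + μ) * z1 ≤ (x - μ) * (z2 - M))
    (g : (x - M + μ) * z2 ≤ (y - μ) * (z1 - M)) (h : (x - M + μ) * z1 ≤ (x - μ) * (z1 - M)) :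
    ∃ s : ℝ, 0 ≤ s ∧ s ≤ 3 / 4 ∧ μ ≤ x - s * z1 ∧ x - s * z1 ≤ (1 - s) * M - μ ∧
      μ ≤ y - s * z2 ∧ y - s * z2 ≤ (1 - s) * M - μ := by
  set s : ℝ := max 0 (max ((x - M + μ) / (z1 - M)) ((y - M + μ) / (z2 - M))) with hs
  have s0 : 0 ≤ s := le_max_left _ _
  have s1 : (x - M + μ) / (z1 - M) ≤ s := (le_max_left _ _).trans (le_max_right _ _)
  have s2 : (y - M + μ) / (z2 - M) ≤ s := (le_max_right _ _).trans (le_max_right _ _)
  have s3 : s ≤ 3 / 4 := by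
    refine max_le (by norm_num) (max_le ?_ ?_)
    · rw [div_le_iff₀ hA]; exact d
    · rw [div_le_iff₀ hB]; exact c
  have s4 : s ≤ (x - μ) / z1 := by
    refine max_le (div_nonneg (by linarith) hz1.le) (max_le ?_ ?_)
    · rw [div_le_div_iff₀ hA hz1]; exact h
    · rw [div_le_div_iff₀ hB hz1]; exact f
  have s5 : s ≤ (y - μ) / z2 := by
    refine max_le (div_nonneg (by linarith) hz2.le) (max_le ?_ ?_)
    · rw [div_le_div_iff₀ hA hz2]; exact g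
    · rw [div_le_div_iff₀ hB hz2]; exact e
  rw [div_le_iff₀ hA] at s1
  rw [div_le_iff₀ hB] at s2
  rw [le_div_iff₀ hz1] at s4
  rw [le_div_iff₀ hz2] at s5
  exact ⟨s, s0, s3, by linarith, by linarith, by linarith, by linarith⟩

/-- III.4 (pure inequalities). -/
theorem corridor_window (M R : ℕ) (hR : 1 ≤ R) (hM : 1000 * R ≤ M) (z : ℤ × ℤ) (hz2 : 1000 * (M : ℤ) ≤ z.2)
    (hz1 : z.2 - M ≤ z.1) :
    ∃ o : ℤ × ℤ, ∃ k : ℤ, ∀ p ∈ Box (M + 1), ∃ s : ℝ, 0 ≤ s ∧ s ≤ 3 / 4 ∧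
      InS M z s (9 * R) (umap o (1, 0) (k, 1) p) := by
  obtain ⟨z1, z2⟩ := z
  simp only at hz1 hz2
  have rR : (1 : ℝ) ≤ R := by exact_mod_cast hR
  have rM : 1000 * (R : ℝ) ≤ M := by exact_mod_cast hM
  have rz2 : 1000 * (M : ℝ) ≤ z2 := by exact_mod_cast hz2
  have rz1 : (z2 : ℝ) - M ≤ z1 := by exact_mod_cast hz1
  have M0 : (1000 : ℝ) ≤ M := by linarith
  have z20 : (0 : ℝ) < z2 := by linarith
  have z10 : (0 : ℝ) < z1 := by linarith
  have hB : (0 : ℝ) < z2 - M := by linarith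
  have hA : (0 : ℝ) < z1 - M := by linarith
  -- the slopes
  set q : ℝ := z1 / z2 with hq
  set q' : ℝ := z1 / (z2 - M) with hq'
  set r : ℝ := (z1 - M) / z2 with hr
  have q1 : 0.999 ≤ q := by
    rw [hq, le_div_iff₀ z20]; linarith
  have q2 : q' ≤ q * (1000 / 999) := by
    rw [hq, hq', div_mul_div_comm, div_le_div_iff₀ hB (by positivity)]
    nlinarith
  have q3 : q - 1 / 1000 ≤ r := by
    rw [hq, hr, sub_le_iff_le_add, ← sub_le_iff_le_add', ← sub_div, div_le_div_iff₀ z20 (by norm_num)]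
    linarith
  have q4 : r ≤ q := by
    rw [hq, hr]; gcongr; linarith
  set k : ℤ := ⌈q / 2⌉ with hk
  have k1 : q / 2 ≤ k := Int.le_ceil _
  have k2 : (k : ℝ) < q / 2 + 1 := Int.ceil_lt_add_one _
  set o2 : ℤ := ⌊3 / 4 * (M : ℝ)⌋ with ho2
  have o1a : (o2 : ℝ) ≤ 3 / 4 * M := Int.floor_le _
  have o1b : 3 / 4 * (M : ℝ) - 1 < o2 := Int.sub_one_lt_floor _
  -- bounds
  set Lb1 : ℝ := 9 * R with hL1
  set Lb2 : ℝ := 9 * R + q' * (o2 + 1 + 9 * R) - k * (M + 1) with hL2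
  set Ub1 : ℝ := -1 - 9 * R + r * (o2 - 9 * R) with hU1
  set Ub2 : ℝ := -1 - 9 * R + r * (o2 + M + 1 - 9 * R) - k * (M + 1) with hU2
  have t1 : r * (o2 - 9 * R) ≥ (q - 1 / 1000) * (o2 - 9 * R) :=
    mul_le_mul_of_nonneg_right q3 (by linarith)
  have t2 : r * (o2 + M + 1 - 9 * R) ≥ (q - 1 / 1000) * (o2 + M + 1 - 9 * R) :=
    mul_le_mul_of_nonneg_right q3 (by linarith)
  have t3 : q' * (o2 + 1 + 9 * R) ≤ q * (1000 / 999) * (o2 + 1 + 9 * R) :=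
    mul_le_mul_of_nonneg_right q2 (by linarith)
  have t4 : (k : ℝ) * (M + 1) ≥ q / 2 * (M + 1) := mul_le_mul_of_nonneg_right k1 (by linarith)
  have t5 : (k : ℝ) * (M + 1) ≤ (q / 2 + 1) * (M + 1) := mul_le_mul_of_nonneg_right k2.le (by linarith)
  have d11 : Lb1 + 1 ≤ Ub1 := by
    have : (0.999 : ℝ) * (o2 - 9 * R) ≤ q * (o2 - 9 * R) := mul_le_mul_of_nonneg_right q1 (by linarith)
    linarith
  have d22 : Lb2 + 1 ≤ Ub2 := by
    have : (0.999 : ℝ) * ((o2 + M + 1 - 9 * R) - 1000 / 999 * (o2 + 1 + 9 * R)) ≤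
        q * ((o2 + M + 1 - 9 * R) - 1000 / 999 * (o2 + 1 + 9 * R)) :=
      mul_le_mul_of_nonneg_right q1 (by linarith)
    linarith
  have d12 : Lb2 + 1 ≤ Ub1 := by
    have : (0.999 : ℝ) * ((o2 - 9 * R) - 1000 / 999 * (o2 + 1 + 9 * R) + (M + 1) / 2) ≤
        q * ((o2 - 9 * R) - 1000 / 999 * (o2 + 1 + 9 * R) + (M + 1) / 2) :=
      mul_le_mul_of_nonneg_right q1 (by linarith)
    linarith
  have d21 : Lb1 + 1 ≤ Ub2 := by
    have : (0.999 : ℝ) * ((o2 + M + 1 - 9 * R) - (M + 1) / 2) ≤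
        q * ((o2 + M + 1 - 9 * R) - (M + 1) / 2) :=
      mul_le_mul_of_nonneg_right q1 (by linarith)
    linarith
  -- choice of `o1`
  set o1 : ℤ := ⌈max Lb1 Lb2⌉ with ho1
  have c0 : max Lb1 Lb2 ≤ o1 := Int.le_ceil _
  have c1 : Lb1 ≤ o1 := (le_max_left _ _).trans c0
  have c2 : Lb2 ≤ o1 := (le_max_right _ _).trans c0
  have c3 : (o1 : ℝ) < max Lb1 Lb2 + 1 := Int.ceil_lt_add_one _
  have c4 : (o1 : ℝ) ≤ Ub1 := by
    refine c3.le.trans ?_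
    rcases max_choice Lb1 Lb2 with h | h <;> rw [h]
    · exact d11
    · exact d12
  have c5 : (o1 : ℝ) ≤ Ub2 := by
    refine c3.le.trans ?_
    rcases max_choice Lb1 Lb2 with h | h <;> rw [h]
    · exact d21
    · exact d22
  refine ⟨(o1, o2), k, ?_⟩
  rintro ⟨i, j⟩ ⟨hi1, hi2, hj1, hj2⟩
  simp only at hi1 hi2 hj1 hj2
  have ri1 : (0 : ℝ) ≤ i := by exact_mod_cast hi1
  have ri2 : (i : ℝ) ≤ M + 1 := by exact_mod_cast hi2
  have rj1 : (0 : ℝ) ≤ j := by exact_mod_cast hj1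
  have rj2 : (j : ℝ) ≤ M + 1 := by exact_mod_cast hj2
  have k0 : (0 : ℝ) ≤ k := by linarith
  set x : ℝ := o1 + i + k * j with hx
  set y : ℝ := o2 + j with hy
  have kj : 0 ≤ (k : ℝ) * j := mul_nonneg k0 rj1
  have e1 : 9 * (R : ℝ) ≤ x := by linarith
  have e2 : 9 * (R : ℝ) ≤ y := by linarith
  -- (2)
  have e3 : 9 * R + q' * (y - M + 9 * R) ≤ x := by
    have q'0 : 0 ≤ q' := div_nonneg z10.le hB.le
    have f0 : 0 ≤ (o1 : ℝ) - 9 * R - q' * (o2 - M + 9 * R) := by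
      have : q' * (o2 - M + 9 * R) ≤ 0 := mul_nonpos_of_nonneg_of_nonpos q'0 (by linarith)
      linarith
    have f1 : 0 ≤ (o1 : ℝ) + k * (M + 1) - 9 * R - q' * (o2 + 1 + 9 * R) := by linarith
    have f2 : 0 ≤ (M + 1 - j) * ((o1 : ℝ) - 9 * R - q' * (o2 - M + 9 * R)) +
        j * ((o1 : ℝ) + k * (M + 1) - 9 * R - q' * (o2 + 1 + 9 * R)) :=
      add_nonneg (mul_nonneg (by linarith) f0) (mul_nonneg rj1 f1)
    have f3 : (M + 1 - j) * ((o1 : ℝ) - 9 * R - q' * (o2 - M + 9 * R)) +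
        j * ((o1 : ℝ) + k * (M + 1) - 9 * R - q' * (o2 + 1 + 9 * R)) =
        (M + 1) * ((o1 : ℝ) + k * j - 9 * R - q' * (o2 + j - M + 9 * R)) := by ring
    rw [f3] at f2
    have f4 : 0 ≤ (o1 : ℝ) + k * j - 9 * R - q' * (o2 + j - M + 9 * R) :=
      nonneg_of_mul_nonneg_right f2 (by linarith)
    linarith
  -- (3)
  have e4 : x ≤ M - 9 * R + r * (y - 9 * R) := by
    have f0 : 0 ≤ -(o1 : ℝ) - 1 - 9 * R + r * (o2 - 9 * R) := by linarith
    have f1 : 0 ≤ -(o1 : ℝ) - k * (M + 1) - 1 - 9 * R + r * (o2 + M + 1 - 9 * R) := by linarith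
    have f2 : 0 ≤ (M + 1 - j) * (-(o1 : ℝ) - 1 - 9 * R + r * (o2 - 9 * R)) +
        j * (-(o1 : ℝ) - k * (M + 1) - 1 - 9 * R + r * (o2 + M + 1 - 9 * R)) :=
      add_nonneg (mul_nonneg (by linarith) f0) (mul_nonneg rj1 f1)
    have f3 : (M + 1 - j) * (-(o1 : ℝ) - 1 - 9 * R + r * (o2 - 9 * R)) +
        j * (-(o1 : ℝ) - k * (M + 1) - 1 - 9 * R + r * (o2 + M + 1 - 9 * R)) =
        (M + 1) * (-(o1 : ℝ) - k * j - 1 - 9 * R + r * (o2 + j - 9 * R)) := by ring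
    rw [f3] at f2
    have f4 : 0 ≤ -(o1 : ℝ) - k * j - 1 - 9 * R + r * (o2 + j - 9 * R) :=
      nonneg_of_mul_nonneg_right f2 (by linarith)
    linarith
  have e5 : r * (y - 9 * R) ≤ z1 * (2 / 1000) := by
    have h1 : r * (y - 9 * R) ≤ q * (2 * M) :=
      mul_le_mul q4 (by linarith) (by linarith) (by linarith)
    have hqz : q * z2 = z1 := div_mul_cancel₀ _ z20.ne'
    have h2 : q * (2 * M) ≤ q * (2 * (z2 / 1000)) := mul_le_mul_of_nonneg_left (by linarith) (by linarith)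
    have h3 : q * (2 * (z2 / 1000)) = z1 * (2 / 1000) := by rw [← hqz]; ring
    linarith
  obtain ⟨s, s0, s1, s2, s3, s4, s5⟩ := exists_slice (x := x) (y := y) (M := M) (μ := 9 * R) z10 z20 hA hB
    e2 e1 (by linarith) (by linarith) (by nlinarith)
    (by
      have h1 : q' * (z2 - M) = z1 := div_mul_cancel₀ _ hB.ne'
      have h2 : (9 * R + q' * (y - M + 9 * R)) * (z2 - M) ≤ x * (z2 - M) :=
        mul_le_mul_of_nonneg_right e3 hB.le
      have h3 : (9 * R + q' * (y - M + 9 * R)) * (z2 - M) =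
        9 * R * (z2 - M) + (q' * (z2 - M)) * (y - M + 9 * R) := by ring
      rw [h3, h1] at h2
      linarith)
    (by
      have h1 : r * z2 = z1 - M := div_mul_cancel₀ _ z20.ne'
      have h2 : x * z2 ≤ (M - 9 * R + r * (y - 9 * R)) * z2 := mul_le_mul_of_nonneg_right e4 z20.le
      have h3 : (M - 9 * R + r * (y - 9 * R)) * z2 = (M - 9 * R) * z2 + (r * z2) * (y - 9 * R) := by ring
      rw [h3, h1] at h2
      linarith)
    (by nlinarith)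
  refine ⟨s, s0, s1, ?_⟩
  simp only [InS, umap]
  push_cast
  refine ⟨?_, ?_, ?_, ?_⟩ <;> linarith

end Pool.Agent.helper18.Vis
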